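import Pool.Agent.LE.StmtsM

/-!
# FNE: the harmonic mean of the Lyapunov exponent in the bulk
-/

set_option autoImplicit false

open MeasureTheory ProbabilityTheory Function Filter

open scoped ENNReal BigOperators Topology NNReal

noncomputable section

namespace Pool.Agent.LE.MN.H54

open Pool.Agent.Anderson hiding box mem_box card_box
open Pool.Agent.Loc Pool.Agent.Mob Pool.Agent.Helper54.Bal
  Pool.Agent.Helper96.EXP Pool.Agent.BED

/-! ### numbers -/

theorem exp_facts (c₀ C₁ K₁ CL : ℝ) (hc₀ : 0 < c₀) (hC₁ : 1 ≤ C₁)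
    (hK₁ : 1 ≤ K₁) (hCL : 1 ≤ CL) : ∃ l₀ : ℝ, 3 ≤ l₀ ∧ ∀ l : ℝ, l₀ ≤ l →
      K₁ * Real.exp (-l) ^ 2 * l ^ 4 ≤ c₀ / 2 ∧ 6 * C₁ * l + 8 ≤ Real.exp l ∧
        CL ≤ Real.exp l ∧ Real.log (1 / c₀) ≤ l := by
  have h0 : 0 < 8 * K₁ / c₀ := by positivity
  refine ⟨8 * K₁ / c₀ + 12 * C₁ + CL + 20, by linarith, fun l hl => ?_⟩
  have hl1 : 8 * K₁ / c₀ ≤ l := by linarith
  have hl2 : 12 * C₁ ≤ l := by linarith
  have hl3 : CL ≤ l := by linarith
  have hl4 : 20 ≤ l := by linarith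
  have hl0 : 0 < l := by linarith
  have hq := Real.quadratic_le_exp_of_nonneg hl0.le
  refine ⟨?_, ?_, ?_, ?_⟩
  · have h1 := Real.pow_div_factorial_le_exp (2 * l) (by linarith) 5
    have h2 : Real.exp (-l) ^ 2 = (Real.exp (2 * l))⁻¹ := by
      rw [← Real.exp_nat_mul, ← Real.exp_neg]
      congr 1
      push_cast
      ring
    have h3 : l ^ 5 / 4 ≤ Real.exp (2 * l) := by
      refine le_trans ?_ h1
      have : ((Nat.factorial 5 : ℕ) : ℝ) = 120 := by norm_num [Nat.factorial]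
      rw [this]
      have h5 : 0 < l ^ 5 := by positivity
      nlinarith
    have h4 : 0 < l ^ 5 / 4 := by positivity
    rw [h2]
    have h5 : (Real.exp (2 * l))⁻¹ ≤ (l ^ 5 / 4)⁻¹ := inv_anti₀ h4 h3
    calc K₁ * (Real.exp (2 * l))⁻¹ * l ^ 4 ≤ K₁ * (l ^ 5 / 4)⁻¹ * l ^ 4 := by gcongr
      _ = 4 * K₁ / l := by field_simp
      _ ≤ c₀ / 2 := by
        rw [div_le_iff₀ hl0]
        rw [div_le_iff₀ hc₀] at hl1
        linarith
  · nlinarith
  · nlinarith
  · have h1 := Real.log_le_sub_one_of_pos (show 0 < 1 / c₀ by positivity)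
    have h2 : 1 / c₀ ≤ 8 * K₁ / c₀ := by
      gcongr
      linarith
    linarith

theorem log_inv_facts {K₁ l η c₀ : ℝ} (hK₁ : 1 ≤ K₁) (hl : 3 ≤ l) (hc₀' : c₀ ≤ 1 / 2)
    (hη : η = K₁ * Real.exp (-l) ^ 2 * l ^ 4) (hηc : η ≤ c₀ / 2) :
    0 < η ∧ η ≤ 1 ∧ Real.exp (-l) ^ 2 ≤ η ∧ 0 ≤ Real.log (1 / η) ∧
      1 + Real.log (1 / η) ≤ 3 * l := by
  have h0 : 0 < Real.exp (-l) ^ 2 := by positivity
  have h1 : 1 ≤ K₁ * l ^ 4 := by
    have : (1 : ℝ) ≤ l ^ 4 := one_le_pow₀ (by linarith)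
    nlinarith
  have hη0 : 0 < η := by
    rw [hη]
    positivity
  have h2 : Real.exp (-l) ^ 2 ≤ η := by
    rw [hη]
    nlinarith
  refine ⟨hη0, by linarith, h2, ?_, ?_⟩
  · apply Real.log_nonneg
    rw [le_div_iff₀ hη0]
    linarith
  · have h3 : Real.log (1 / η) ≤ 2 * l := by
      have h4 : 1 / η ≤ Real.exp (2 * l) := by
        rw [div_le_iff₀ hη0]
        have h5 : Real.exp (2 * l) * Real.exp (-l) ^ 2 = 1 := by
          rw [← Real.exp_nat_mul, ← Real.exp_add]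
          rw [show 2 * l + ((2 : ℕ) : ℝ) * -l = 0 by push_cast; ring, Real.exp_zero]
        calc (1 : ℝ) = Real.exp (2 * l) * Real.exp (-l) ^ 2 := h5.symm
          _ ≤ Real.exp (2 * l) * η := by gcongr
      calc Real.log (1 / η) ≤ Real.log (Real.exp (2 * l)) :=
            Real.log_le_log (by positivity) h4
        _ = 2 * l := Real.log_exp _
    linarith

/-! ### geometry -/

theorem pt_add {d : ℕ} (i : Fin d) (k L : ℕ) : pt i (k * L) + pt i L = pt i ((k + 1) * L) := by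
  unfold pt
  rw [← Pi.single_add]
  congr 1
  push_cast
  ring

theorem sd_pt {d : ℕ} (i : Fin d) (k : ℕ) : sd (0 : Site d) (pt i k) = k := by
  apply le_antisymm
  · have h1 : ((sd (0 : Site d) (pt i k) : ℕ) : ℤ) ≤ k := by
      have := (sd_le_iff (x := (0 : Site d)) (y := pt i k) (n := k)).2 (by
        intro j
        unfold pt
        by_cases hj : j = i
        · subst hj
          simp
        · rw [Pi.single_eq_of_ne hj]
          simp)
      exact_mod_cast this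
    exact_mod_cast h1
  · have := (sd_le_iff (x := (0 : Site d)) (y := pt i k)).1 le_rfl i
    unfold pt at this
    rw [Pi.single_eq_same, Pi.zero_apply, zero_sub, abs_neg, Nat.abs_cast] at this
    exact_mod_cast this

theorem box_pt_subset {d : ℕ} (i : Fin d) {k r N : ℕ} (h : k + r ≤ N) :
    box (pt i k) r ⊆ box (0 : Site d) N := by
  intro y hy
  rw [mem_box] at hy ⊢
  have := sd_triangle (0 : Site d) (pt i k) y
  rw [sd_pt] at this
  omega

theorem sd_of_mem_box_pt {d : ℕ} (i : Fin d) {k r : ℕ} {u : Site d} (hu : u ∈ box (pt i k) r) :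
    k ≤ sd (0 : Site d) u + r := by
  rw [mem_box] at hu
  have := sd_triangle (0 : Site d) u (pt i k)
  rw [sd_pt, sd_comm u] at this
  omega

theorem box_nonempty {d : ℕ} (x : Site d) (n : ℕ) : (box x n).Nonempty :=
  ⟨x, by rw [mem_box, sd_self]; omega⟩

/-! ### the link -/

theorem bad_le {d : ℕ} {μ : Measure (Site d → ℝ)} (S : Finset (Site d))
    (P : Site d → (Site d → ℝ) → Prop) {q : ℝ}
    (h : ∀ x ∈ S, μ {V | ¬ P x V} ≤ ENNReal.ofReal q) :
    μ {V | ¬ ∀ x ∈ S, P x V} ≤ ENNReal.ofReal (S.card * q) := by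
  have h1 : {V | ¬ ∀ x ∈ S, P x V} ⊆ ⋃ x ∈ S, {V | ¬ P x V} := by
    intro V hV
    rw [Set.mem_ofPred_eq] at hV
    push Not at hV
    obtain ⟨x, hx, hx'⟩ := hV
    exact Set.mem_iUnion₂.2 ⟨x, hx, hx'⟩
  refine (measure_mono h1).trans ((measure_biUnion_finset_le S _).trans ?_)
  refine (Finset.sum_le_sum h).trans ?_
  rw [Finset.sum_const, nsmul_eq_mul, ENNReal.ofReal_mul (Nat.cast_nonneg _),
    ENNReal.ofReal_natCast]

theorem LC_le {d : ℕ} {V : Site d → ℝ} {Λ : Finset (Site d)} {z : ℂ} {S S' : Finset (Site d)}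
    {m t : ℝ} (hm : 0 < m) (ht : -(Real.log m) / 2 ≤ t)
    (h : ∀ x ∈ S, ∃ y ∈ S', m ≤ ‖gz V Λ z x y‖ ^ 2) : LC V Λ z S S' ≤ ENNReal.ofReal t := by
  unfold LC
  refine Finset.sup_le fun x hx => ?_
  obtain ⟨y, hy, hxy⟩ := h x hx
  refine (Finset.inf_le hy).trans (ENNReal.ofReal_le_ofReal ?_)
  unfold DZ
  have h1 := Real.log_le_log hm hxy
  rw [Real.log_pow] at h1
  push_cast at h1
  linarith

theorem fne (dlk : DlkStmt) (prb : PrbStmt) (lnk : LnkStmt) (chn : ChnStmt) (avg : AvgStmt) :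
    FneStmt := by
  intro d δ hd hδ
  obtain ⟨c₀, C₁, hc₀, hc₀', hC₁, hdlk⟩ := dlk d δ hd hδ
  obtain ⟨AL, CL, hAL, hCL, hlnk⟩ := lnk d (by omega)
  set A : ℝ := AL + 9 * d + 7 with hA
  obtain ⟨CP, hCP, hprb⟩ := prb d A hd (by
    have : (0 : ℝ) ≤ d := Nat.cast_nonneg d
    linarith)
  set K₁ : ℝ := 36 * CP / c₀ ^ 2 with hK₁
  have hK₁1 : 1 ≤ K₁ := by
    rw [hK₁, le_div_iff₀ (by positivity)]
    nlinarith
  obtain ⟨l₀, hl₀, hnum⟩ := exp_facts c₀ C₁ K₁ CL hc₀ hC₁ hK₁1 hCL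
  have hd0 : (3 : ℝ) ≤ d := by exact_mod_cast hd
  set CX : ℝ := 8 * d + 4 with hCX
  have hCX0 : 0 < CX := by linarith
  refine ⟨Real.exp (-l₀), 32 * CX * K₁ / c₀, K₁, Real.exp_pos _, ?_, ?_, hK₁1, ?_⟩
  · have h1 : Real.exp (-l₀) ≤ Real.exp (-3) := Real.exp_le_exp.2 (by linarith)
    have h2 := Real.add_one_le_exp (3 : ℝ)
    have h3 : Real.exp (-3) = (Real.exp 3)⁻¹ := Real.exp_neg 3
    have h4 : (Real.exp 3)⁻¹ ≤ (4 : ℝ)⁻¹ := inv_anti₀ (by norm_num) (by linarith)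
    linarith
  · rw [le_div_iff₀ hc₀]
    nlinarith
  intro σ E₀ γ hσ hσc hγ hE₀
  have hσ0 : 0 < |σ| := abs_pos.2 hσ
  set l : ℝ := Real.log (1 / |σ|) with hl
  have hσl : |σ| = Real.exp (-l) := by
    rw [hl, one_div, Real.log_inv, neg_neg, Real.exp_log hσ0]
  have hl0 : l₀ ≤ l := by
    rw [hσl] at hσc
    have := Real.exp_le_exp.1 hσc
    linarith
  obtain ⟨hη2, hexp, hCLl, hlogc⟩ := hnum l hl0
  have hl3 : 3 ≤ l := hl₀.trans hl0
  have hσ2 : σ ^ 2 = Real.exp (-l) ^ 2 := by rw [← hσl, sq_abs]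
  set η : ℝ := K₁ * σ ^ 2 * l ^ 4 with hη
  have hη' : η = K₁ * Real.exp (-l) ^ 2 * l ^ 4 := by rw [hη, hσ2]
  rw [← hη'] at hη2
  obtain ⟨hη0, hη1, hsη, hlogη, hlogη'⟩ := log_inv_facts hK₁1 hl3 hc₀' hη' hη2
  have hσ12 : |σ| ≤ 1 / 2 := by
    have h1 : Real.exp (-l) ≤ Real.exp (-3) := Real.exp_le_exp.2 (by linarith)
    have h2 := Real.add_one_le_exp (3 : ℝ)
    have h3 : Real.exp (-3) = (Real.exp 3)⁻¹ := Real.exp_neg 3
    have h4 : (Real.exp 3)⁻¹ ≤ (4 : ℝ)⁻¹ := inv_anti₀ (by norm_num) (by linarith)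
    rw [hσl]
    linarith
  -- the scales
  set R₂ : ℕ := ⌈C₁ * (1 + Real.log (1 / η)) / η⌉₊ with hR₂
  set L : ℕ := ⌊c₀ / η⌋₊ with hL
  have hR₂l : C₁ * (1 + Real.log (1 / η)) / η ≤ R₂ := Nat.le_ceil _
  have hR₂u : (R₂ : ℝ) ≤ C₁ * (3 * l) / η + 1 := by
    have h1 : (R₂ : ℝ) < C₁ * (1 + Real.log (1 / η)) / η + 1 :=
      Nat.ceil_lt_add_one (by positivity)
    have h2 : C₁ * (1 + Real.log (1 / η)) / η ≤ C₁ * (3 * l) / η := by gcongr
    linarith
  have hLu : (L : ℝ) ≤ c₀ / η := Nat.floor_le (by positivity)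
  have hLl : c₀ / (2 * η) ≤ L := by
    have h1 : c₀ / η < L + 1 := Nat.lt_floor_add_one _
    have h2 : 1 ≤ c₀ / (2 * η) := by
      rw [le_div_iff₀ (by positivity)]
      linarith
    have h3 : c₀ / η = c₀ / (2 * η) + c₀ / (2 * η) := by
      field_simp
      ring
    linarith
  have hL1 : 1 ≤ L := by
    have h2 : 1 ≤ c₀ / (2 * η) := by
      rw [le_div_iff₀ (by positivity)]
      linarith
    have h3 : (1 : ℝ) ≤ L := h2.trans hLl
    exact_mod_cast h3
  set R : ℕ := R₂ + L with hR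
  have hinvη : 1 / η ≤ Real.exp (2 * l) := by
    rw [div_le_iff₀ hη0]
    have h5 : Real.exp (2 * l) * Real.exp (-l) ^ 2 = 1 := by
      rw [← Real.exp_nat_mul, ← Real.exp_add]
      rw [show 2 * l + ((2 : ℕ) : ℝ) * -l = 0 by push_cast; ring, Real.exp_zero]
    calc (1 : ℝ) = Real.exp (2 * l) * Real.exp (-l) ^ 2 := h5.symm
      _ ≤ Real.exp (2 * l) * η := by gcongr
  have hR3 : (2 * R + 1 : ℝ) ≤ Real.exp (3 * l) := by
    have h1 : (1 : ℝ) ≤ 1 / η := by
      rw [le_div_iff₀ hη0]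
      linarith
    have h2 : (R : ℝ) = R₂ + L := by rw [hR]; push_cast; ring
    have h3 : (2 * R + 1 : ℝ) ≤ (6 * C₁ * l + 8) * (1 / η) := by
      have h4 : C₁ * (3 * l) / η = 3 * C₁ * l * (1 / η) := by ring
      have h5 : c₀ / η ≤ 1 * (1 / η) := by
        rw [div_eq_mul_one_div]
        gcongr
        linarith
      rw [h2]
      rw [h4] at hR₂u
      linarith
    refine h3.trans ?_
    calc (6 * C₁ * l + 8) * (1 / η) ≤ Real.exp l * Real.exp (2 * l) := by gcongr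
      _ = Real.exp (3 * l) := by
        rw [← Real.exp_add]
        ring_nf
  have hR₂3 : (2 * R₂ + 1 : ℝ) ≤ Real.exp (3 * l) := by
    refine le_trans ?_ hR3
    have : (R₂ : ℝ) ≤ R := by
      rw [hR]
      push_cast
      have : (0 : ℝ) ≤ L := Nat.cast_nonneg _
      linarith
    linarith
  -- powers of `|σ|`
  have hpow : ∀ a : ℝ, |σ| ^ a = Real.exp (-(a * l)) := by
    intro a
    rw [hσl, ← Real.exp_mul]
    ring_nf
  -- the operator bound
  set τ : ℝ := c₀ / Real.sqrt (3 * l) with hτ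
  have hsq : Real.sqrt (3 * l) ^ 2 = 3 * l := Real.sq_sqrt (by linarith)
  have hsq1 : 1 ≤ Real.sqrt (3 * l) := by
    rw [Real.one_le_sqrt]
    linarith
  have hτ0 : 0 < τ := by positivity
  have hτc : τ ≤ c₀ := div_le_self hc₀.le hsq1
  have hτ2 : τ ^ 2 = c₀ ^ 2 / (3 * l) := by rw [hτ, div_pow, hsq]
  set t : ℝ := 2 * d * l with ht
  set q₀ : ℝ := |σ| ^ A with hq₀
  have hq₀0 : 0 ≤ q₀ := Real.rpow_nonneg (abs_nonneg _) _
  have hprb1 : ∀ x : Site d, PP d (gl σ) {V | ¬ ∀ v : (box x R₂) → ℂ,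
      nsq (Matrix.mulVec (XM (Csq (box x R₂) E₀ η hη0) (fun y => V y)) v) ≤ τ ^ 2 * nsq v} ≤
        ENNReal.ofReal q₀ := by
    intro x
    refine hprb σ E₀ η τ R₂ x hη0 hσ hσ12 hη1 hτ0 (by linarith) ?_ ?_
    · rw [← hl, hτ2]
      have h1 : CP * σ ^ 2 * (1 + l) ^ 2 * (1 + Real.log (1 / η)) ≤
          CP * σ ^ 2 * (2 * l) ^ 2 * (3 * l) := by
        gcongr
        linarith
      refine h1.trans (le_of_eq ?_)
      rw [hη, hK₁]
      field_simp
      ring
    · rw [hpow]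
      refine hR₂3.trans (Real.exp_le_exp.2 ?_)
      rw [hA]
      nlinarith
  have hm : 0 < c₀ / (η * (2 * R₂ + 1 : ℝ) ^ d) := by positivity
  have htm : -(Real.log (c₀ / (η * (2 * R₂ + 1 : ℝ) ^ d))) / 2 ≤ t := by
    rw [Real.log_div hc₀.ne' (by positivity), Real.log_mul hη0.ne' (by positivity), Real.log_pow]
    have h1 : Real.log η ≤ 0 := Real.log_nonpos hη0.le hη1
    have h2 : Real.log (2 * R₂ + 1 : ℝ) ≤ 3 * l := by
      calc Real.log (2 * R₂ + 1 : ℝ) ≤ Real.log (Real.exp (3 * l)) :=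
            Real.log_le_log (by positivity) hR₂3
        _ = 3 * l := Real.log_exp _
    have h3 : (d : ℝ) * Real.log (2 * R₂ + 1 : ℝ) ≤ d * (3 * l) := by gcongr
    rw [one_div, Real.log_inv] at hlogc
    rw [ht]
    nlinarith
  have hlink : ∀ (N : ℕ) (a : Site d) (i : Fin d), box a (R + R₂ + 1) ⊆ box 0 N →
      PP d (gl σ) {V | ¬ LC V (box 0 N) (zc E₀ η) (box a R) (box (a + pt i L) R) ≤
        ENNReal.ofReal t} ≤ ENNReal.ofReal ((2 * R + 1 : ℝ) ^ d * q₀) := by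
    intro N a i hbox
    have h1 := bad_le (μ := PP d (gl σ)) (box a R) (fun x V => ∀ v : (box x R₂) → ℂ,
      nsq (Matrix.mulVec (XM (Csq (box x R₂) E₀ η hη0) (fun y => V y)) v) ≤ τ ^ 2 * nsq v)
      (fun x _ => hprb1 x)
    rw [card_box] at h1
    push_cast at h1
    refine (measure_mono ?_).trans h1
    intro V hV
    rw [Set.mem_ofPred_eq] at hV ⊢
    intro hall
    apply hV
    refine LC_le hm htm ?_
    refine hdlk V N L R R₂ a i E₀ η τ hη0 hE₀ (by linarith) hLu hR₂l (by omega) hτ0.le hτc ?_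
      hbox hall
    rw [hτ2]
    calc c₀ ^ 2 / (3 * l) * (1 + Real.log (1 / η)) ≤ c₀ ^ 2 / (3 * l) * (3 * l) := by gcongr
      _ = c₀ ^ 2 := by field_simp
      _ ≤ c₀ := by nlinarith
  have hzre : |(zc E₀ η).re| ≤ 2 * d + 2 := by
    have : (zc E₀ η).re = E₀ := by simp [zc]
    rw [this]
    linarith
  have hzim : (zc E₀ η).im = η := by simp [zc]
  have hLR : ((L : ℝ) + 1) ≤ 2 * R + 1 := by
    have : (L : ℝ) ≤ R := by
      rw [hR]
      push_cast
      have : (0 : ℝ) ≤ R₂ := Nat.cast_nonneg _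
      linarith
    have : (0 : ℝ) ≤ R := Nat.cast_nonneg _
    linarith
  have hmean : ∀ (N : ℕ) (a : Site d) (i : Fin d), box a (R + R₂ + 1) ⊆ box 0 N →
      box (a + pt i L) R ⊆ box 0 N →
      ∫⁻ V, LC V (box 0 N) (zc E₀ η) (box a R) (box (a + pt i L) R) ∂(PP d (gl σ)) ≤
        ENNReal.ofReal (t + 1) := by
    intro N a i hbox hbox2
    refine (hlnk σ (zc E₀ η) N R L a i hσ (by linarith) hzre (by rw [hzim]; exact hη0)
      (by rw [hzim]; exact hη1) ((box_mono a (by omega)).trans hbox)).1 t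
      ((2 * R + 1 : ℝ) ^ d * q₀) (by positivity) (by positivity) hbox2 ?_ (hlink N a i hbox)
    rw [hq₀, hpow, hpow]
    have h1 : (2 * R + 1 : ℝ) ^ (2 * d) * ((L : ℝ) + 1) ^ 2 * (2 * R + 1 : ℝ) ^ d ≤
        Real.exp ((9 * d + 6) * l) := by
      calc (2 * R + 1 : ℝ) ^ (2 * d) * ((L : ℝ) + 1) ^ 2 * (2 * R + 1 : ℝ) ^ d
          ≤ (2 * R + 1 : ℝ) ^ (2 * d) * (2 * R + 1 : ℝ) ^ 2 * (2 * R + 1 : ℝ) ^ d := by gcongr
        _ = (2 * R + 1 : ℝ) ^ (3 * d + 2) := by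
          rw [← pow_add, ← pow_add]
          congr 1
          ring
        _ ≤ (Real.exp (3 * l)) ^ (3 * d + 2) := by gcongr
        _ = Real.exp ((9 * d + 6) * l) := by
          rw [← Real.exp_nat_mul]
          congr 1
          push_cast
          ring
    calc CL * Real.exp (-(-AL * l)) * (2 * R + 1 : ℝ) ^ (2 * d) * ((L : ℝ) + 1) ^ 2 *
          ((2 * R + 1 : ℝ) ^ d * Real.exp (-(A * l)))
        = CL * (Real.exp (AL * l) * Real.exp (-(A * l))) *
          ((2 * R + 1 : ℝ) ^ (2 * d) * ((L : ℝ) + 1) ^ 2 * (2 * R + 1 : ℝ) ^ d) := by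
          rw [show -(-AL * l) = AL * l by ring]
          ring
      _ ≤ CL * (Real.exp (AL * l) * Real.exp (-(A * l))) * Real.exp ((9 * d + 6) * l) := by
          gcongr
      _ = CL * Real.exp (-l) := by
          rw [mul_assoc, ← Real.exp_add, ← Real.exp_add]
          congr 2
          rw [hA]
          ring
      _ ≤ Real.exp l * Real.exp (-l) := by gcongr
      _ = 1 := by rw [← Real.exp_add, add_neg_cancel, Real.exp_zero]
  -- the chain
  set X : ℝ := CX * l with hX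
  have hX0 : 0 < X := by positivity
  set A₂ : ℝ := CL * |σ| ^ (-AL) * (2 * R + 1 : ℝ) ^ d with hA₂
  have hA₂0 : 0 ≤ A₂ := by positivity
  have hlog : Real.log (1 + 8 * (2 * R + 1 : ℝ) ^ (2 * d) / |σ|) ≤ (6 * d + 2) * l + 1 := by
    have h1 : (1 : ℝ) ≤ (2 * R + 1 : ℝ) ^ (2 * d) / |σ| := by
      rw [le_div_iff₀ hσ0]
      have : (1 : ℝ) ≤ (2 * R + 1 : ℝ) ^ (2 * d) := one_le_pow₀ (by
        have : (0 : ℝ) ≤ R := Nat.cast_nonneg _
        linarith)
      linarith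
    have h2 : 1 + 8 * (2 * R + 1 : ℝ) ^ (2 * d) / |σ| ≤
        9 * ((2 * R + 1 : ℝ) ^ (2 * d) / |σ|) := by
      rw [mul_div_assoc]
      linarith
    have h9 : (9 : ℝ) ≤ Real.exp (l + 1) := by
      have h5 : Real.exp 4 ≤ Real.exp (l + 1) := Real.exp_le_exp.2 (by linarith)
      have h6 := Real.quadratic_le_exp_of_nonneg (show (0 : ℝ) ≤ 4 by norm_num)
      linarith
    have h3 : 9 * ((2 * R + 1 : ℝ) ^ (2 * d) / |σ|) ≤ Real.exp ((6 * d + 2) * l + 1) := by
      calc 9 * ((2 * R + 1 : ℝ) ^ (2 * d) / |σ|)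
          ≤ Real.exp (l + 1) * ((Real.exp (3 * l)) ^ (2 * d) / Real.exp (-l)) := by
            rw [hσl]
            gcongr
        _ = Real.exp ((6 * d + 2) * l + 1) := by
            rw [← Real.exp_nat_mul, ← Real.exp_sub, ← Real.exp_add]
            congr 1
            push_cast
            ring
    calc Real.log (1 + 8 * (2 * R + 1 : ℝ) ^ (2 * d) / |σ|)
        ≤ Real.log (Real.exp ((6 * d + 2) * l + 1)) :=
          Real.log_le_log (by positivity) (h2.trans h3)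
      _ = _ := Real.log_exp _
  have hXX : t + 1 + 1 + Real.log (1 + 8 * (2 * R + 1 : ℝ) ^ (2 * d) / |σ|) ≤ X := by
    rw [hX, hCX, ht]
    nlinarith
  set c : ℝ := 2 * X / L with hc
  have hLpos : (0 : ℝ) < L := by exact_mod_cast hL1
  have hc0 : 0 ≤ c := by positivity
  have hmain := avg d ((2 * R + 1) ^ d) σ E₀ η c γ (by omega) hσ hη0 hc0 hγ ?_
  · refine hmain.trans (ENNReal.ofReal_le_ofReal ?_)
    have h1 : c ≤ 4 * CX * K₁ / c₀ * σ ^ 2 * l ^ 5 := by
      rw [hc]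
      calc 2 * X / L ≤ 2 * X / (c₀ / (2 * η)) := by gcongr
        _ = 4 * CX * K₁ / c₀ * σ ^ 2 * l ^ 5 := by
          rw [hX, hη]
          field_simp
          ring
    have h2 : Real.pi ≤ 4 := Real.pi_le_four
    have h3 : 0 ≤ 4 * CX * K₁ / c₀ * σ ^ 2 * l ^ 5 := by positivity
    calc 2 * Real.pi * c ≤ 2 * 4 * (4 * CX * K₁ / c₀ * σ ^ 2 * l ^ 5) := by gcongr
      _ = 32 * CX * K₁ / c₀ * σ ^ 2 * l ^ 5 := by ring
  · intro M₀
    set i : Fin d := ⟨0, by omega⟩ with hi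
    obtain ⟨K₀, hK₀⟩ := exists_nat_ge ((A₂ + 2 * X * (R + 1) / L) / X)
    set K : ℕ := max K₀ (M₀ + R + 2) with hK
    have hKK₀ : K₀ ≤ K := le_max_left _ _
    have hKM₀ : M₀ + R + 2 ≤ K := le_max_right _ _
    have hKL : K ≤ K * L := Nat.le_mul_of_pos_right K hL1
    have hbig : ∀ k ≤ K, k * L ≤ K * L := fun k hk => Nat.mul_le_mul_right L hk
    refine ⟨K * L - R - 1, K * L + R + R₂ + 2, box (pt i (K * L)) R, by omega, by omega,
      box_pt_subset i (by omega), box_nonempty _ _, by rw [card_box], ?_, ?_⟩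
    · intro u hu
      have := sd_of_mem_box_pt i hu
      omega
    · have h1 := chn d K L R (K * L + R + R₂ + 2) i σ (zc E₀ η) (t + 1) A₂ hσ (by linarith)
        (by rw [hzim]; exact hη0) (by positivity) hA₂0
        (fun k hk => box_pt_subset i (by have := hbig k hk; omega)) ?_ ?_
      · refine h1.trans (ENNReal.ofReal_le_ofReal ?_)
        have h2 : (K : ℝ) * (t + 1 + 1 + Real.log (1 + 8 * (2 * R + 1 : ℝ) ^ (2 * d) / |σ|)) ≤
            K * X := by gcongr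
        have h3 : (A₂ + 2 * X * (R + 1) / L) ≤ K * X := by
          have h4 : (A₂ + 2 * X * (R + 1) / L) / X ≤ K := hK₀.trans (by exact_mod_cast hKK₀)
          rwa [div_le_iff₀ hX0] at h4
        have h5 : ((K * L - R - 1 : ℕ) : ℝ) = K * L - R - 1 := by
          rw [Nat.sub_sub, Nat.cast_sub (by omega)]
          push_cast
          ring
        have h6 : c * ((K * L - R - 1 : ℕ) : ℝ) = 2 * (K * X) - 2 * X * (R + 1) / L := by
          rw [h5, hc]
          field_simp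
          ring
        rw [h6]
        linarith
      · intro k hk
        have hk1 : (k + 1) * L ≤ K * L := Nat.mul_le_mul_right L hk
        have hk2 : k * L + L = (k + 1) * L := by ring
        rw [← pt_add]
        refine hmean _ _ i (box_pt_subset i (by omega)) ?_
        rw [pt_add]
        exact box_pt_subset i (by omega)
      · exact (hlnk σ (zc E₀ η) _ R L _ i hσ (by linarith) hzre (by rw [hzim]; exact hη0)
          (by rw [hzim]; exact hη1) (box_pt_subset i (by omega))).2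

end Pool.Agent.LE.MN.H54
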