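import Pool.Agent.Helper54_LYM.FNE

/-!
# WEN: the mean of the Lyapunov exponent near the band edge
-/

set_option autoImplicit false

open MeasureTheory ProbabilityTheory Function Filter

open scoped ENNReal BigOperators Topology NNReal

noncomputable section

namespace Pool.Agent.LE.MN.H54

open Pool.Agent.Anderson hiding box mem_box card_box
open Pool.Agent.Loc Pool.Agent.Mob Pool.Agent.Helper54.Bal
  Pool.Agent.Helper96.EXP Pool.Agent.BED

theorem mem_box_zero {d : ℕ} {a x : Site d} (h : x ∈ box a 0) : x = a := by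
  rw [mem_box] at h
  funext j
  have h1 := (sd_le_iff (x := a) (y := x) (n := 0)).1 h j
  have h2 : a j - x j = 0 := by
    rw [← abs_nonpos_iff]
    exact_mod_cast h1
  linarith

theorem LC_zero_le {d : ℕ} {V : Site d → ℝ} {Λ : Finset (Site d)} {z : ℂ} {a b : Site d}
    {t : ℝ} (h : DZ Λ z V a b ≤ t) : LC V Λ z (box a 0) (box b 0) ≤ ENNReal.ofReal t := by
  unfold LC
  refine Finset.sup_le fun x hx => ?_
  have hb : b ∈ box b 0 := by
    rw [mem_box, sd_self]
  rw [mem_box_zero hx]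
  exact (Finset.inf_le hb).trans (ENNReal.ofReal_le_ofReal h)

theorem wen (cdz : CdzStmt) (lnk : LnkStmt) (chn : ChnStmt) (avg : AvgStmt) (win : WinStmt) :
    WenStmt := by
  intro d hd
  obtain ⟨C₂, hC₂, hcdz⟩ := cdz d (by omega)
  obtain ⟨AL, CL, hAL, hCL, hlnk⟩ := lnk d (by omega)
  set C₃ : ℝ := 4 * C₂ + 16 * (AL + 4) with hC₃
  set C : ℝ := 16 * (1 + C₃) ^ 2 + 160 * C₂ * (4 * C₂ + 6) + 2 * CL + 100 with hC
  have hd0 : (3 : ℝ) ≤ d := by exact_mod_cast hd
  have hC₃1 : 84 ≤ C₃ := by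
    rw [hC₃]
    linarith
  have hCa : 16 * (1 + C₃) ^ 2 ≤ C := by
    have : 0 < C₂ * (4 * C₂ + 6) := by positivity
    rw [hC]
    linarith
  have hCb : 160 * C₂ * (4 * C₂ + 6) ≤ C := by
    rw [hC]
    nlinarith
  have hCc : 2 * CL ≤ C := by
    have : 0 < C₂ * (4 * C₂ + 6) := by positivity
    have : 0 < (1 + C₃) ^ 2 := by positivity
    rw [hC]
    linarith
  have hCd : 100 ≤ C := by
    have : 0 < C₂ * (4 * C₂ + 6) := by positivity
    have : 0 < (1 + C₃) ^ 2 := by positivity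
    rw [hC]
    linarith
  have hCe : C₃ / 16 ≤ C := by nlinarith
  refine ⟨1 / 2, C, by norm_num, by linarith, ?_⟩
  intro M' v σ t z μ lam p γ hσ hσ1 hv hz1 hz2 hσt hCt htμ htM hflat hp hγ hlt hlam
  have hσ0 : 0 < |σ| := abs_pos.2 hσ
  have ht0 : 0 < t := by linarith
  set w : ℝ := Real.log t with hw
  have htw : t = Real.exp w := by rw [hw, Real.exp_log ht0]
  have hw1 : 1 ≤ w := by
    rw [hw, Real.le_log_iff_exp_le ht0]
    have := Real.exp_one_lt_three
    linarith
  have hwt : w ≤ t := by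
    have := Real.add_one_le_exp w
    rw [htw]
    linarith
  have hlam0 : 0 < lam := by
    by_contra hcon
    push Not at hcon
    nlinarith
  set s : ℝ := Real.sqrt lam with hs
  have hs0 : 0 < s := Real.sqrt_pos.2 hlam0
  have hss : s * s = lam := Real.mul_self_sqrt hlam0.le
  have hs1 : s ≤ 1 := by
    rw [hs, Real.sqrt_le_one]
    linarith
  have hws : 1 ≤ w / s := by
    rw [le_div_iff₀ hs0]
    linarith
  -- the scales
  set n : ℕ := ⌈w / s⌉₊ with hn
  set R : ℕ := ⌈C₃ * w / s⌉₊ with hR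
  have hnl : w / s ≤ n := Nat.le_ceil _
  have hnu : (n : ℝ) ≤ w / s + 1 := (Nat.ceil_lt_add_one (by positivity)).le
  have hRl : C₃ * w / s ≤ R := Nat.le_ceil _
  have hRu : (R : ℝ) ≤ C₃ * w / s + 1 := (Nat.ceil_lt_add_one (by positivity)).le
  have hn1 : 1 ≤ n := by
    have : (1 : ℝ) ≤ n := hws.trans hnl
    exact_mod_cast this
  have hR1 : 1 ≤ R := by
    have h1 : (1 : ℝ) ≤ R := by
      refine le_trans ?_ hRl
      rw [le_div_iff₀ hs0]
      nlinarith
    exact_mod_cast h1
  have hnpos : (0 : ℝ) < n := by exact_mod_cast hn1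
  have hRpos : (0 : ℝ) < R := by exact_mod_cast hR1
  have hwsε : w / s ≤ t / (4 * (1 + C₃)) := by
    rw [div_le_div_iff₀ hs0 (by positivity)]
    have h1 : (w * (4 * (1 + C₃))) ^ 2 ≤ (t * s) ^ 2 := by
      calc (w * (4 * (1 + C₃))) ^ 2 = (w * w) * (16 * (1 + C₃) ^ 2) := by ring
        _ ≤ (w * t) * C := by gcongr
        _ = t * (C * w) := by ring
        _ ≤ t * (lam * t) := by gcongr
        _ = (t * s) ^ 2 := by rw [← hss]; ring
    exact le_of_sq_le_sq h1 (by positivity)
  have hnR : (2 * (n + R) + 5 : ℝ) ≤ t := by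
    have h1 : C₃ * w / s = C₃ * (w / s) := by ring
    have h2 : (1 + C₃) * (w / s) ≤ t / 4 := by
      calc (1 + C₃) * (w / s) ≤ (1 + C₃) * (t / (4 * (1 + C₃))) := by gcongr
        _ = t / 4 := by field_simp
    rw [h1] at hRu
    linarith
  have hRt : (R : ℝ) ≤ t := by linarith
  -- logarithms
  have hL1 : Real.log (1 / lam) ≤ w := by
    rw [hw]
    refine Real.log_le_log (by positivity) ?_
    rw [div_le_iff₀ hlam0]
    nlinarith
  have hL1' : 0 ≤ Real.log (1 / lam) := by
    apply Real.log_nonneg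
    rw [le_div_iff₀ hlam0]
    linarith
  have hL2 : Real.log (1 / |σ|) ≤ w := Real.log_le_log (by positivity) hσt
  have hL3 : Real.log R ≤ w := Real.log_le_log hRpos hRt
  have hsn : s * n ≤ 2 * w := by
    calc s * n ≤ s * (w / s + 1) := by gcongr
      _ = w + s := by field_simp
      _ ≤ 2 * w := by linarith
  have hsR : C₃ * w ≤ s * R := by
    calc C₃ * w = s * (C₃ * w / s) := by field_simp
      _ ≤ s * R := by gcongr
  set T₀ : ℝ := 4 * C₂ * w with hT₀
  have hcost : C₂ * (1 + Real.log (1 / lam) + s * n) ≤ T₀ := by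
    calc C₂ * (1 + Real.log (1 / lam) + s * n) ≤ C₂ * (w + w + 2 * w) := by gcongr
      _ = T₀ := by rw [hT₀]; ring
  set η : ℝ := lam / (4 * C₂ * w) with hη
  have hη0 : 0 < η := by positivity
  have hηlam : η ≤ lam := by
    refine div_le_self hlam0.le ?_
    nlinarith
  set E₀ : ℝ := z + lam with hE₀
  set q : ℝ := 2 * t ^ (-(C₃ / 16)) with hq
  have hq0 : 0 ≤ q := by positivity
  have hprob : ∀ (N : ℕ) (b : Site d) (i : Fin d), box b (n + R + 1) ⊆ box 0 N →
      PP d (gl σ) {V | ¬ LC V (box 0 N) (zc E₀ η) (box b 0) (box (b + pt i n) 0) ≤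
        ENNReal.ofReal T₀} ≤ ENNReal.ofReal q := by
    intro N b i hbox
    have h1 := hcdz M' n R N v σ z μ lam η p b i hσ hσ1 hv (by linarith) hz2 hlam0
      (by linarith) (by linarith) (by nlinarith) hη0 hflat ?_ ?_ hbox ?_ ?_
    · refine (measure_mono ?_).trans (h1.trans (ENNReal.ofReal_le_ofReal ?_))
      · intro V hV
        rw [Set.mem_ofPred_eq] at hV ⊢
        intro hall
        exact hV (LC_zero_le (hall.trans hcost))
      · have h2 : p ≤ t ^ (-(C₃ / 16)) :=
          hp.trans (Real.rpow_le_rpow_of_exponent_le (by linarith) (by linarith))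
        have h3 : Real.exp (-(s * R / 16)) ≤ t ^ (-(C₃ / 16)) := by
          rw [Real.rpow_def_of_pos ht0, ← hw]
          exact Real.exp_le_exp.2 (by linarith)
        rw [hq]
        linarith
    · have h2 : ((2 * (n + R) + 5 : ℕ) : ℝ) ≤ M' := by
        push_cast
        exact hnR.trans htM
      exact_mod_cast h2
    · refine le_trans ?_ hRl
      calc C₂ * n ≤ C₂ * (w / s + 1) := by gcongr
        _ ≤ C₂ * (w / s + w / s) := by gcongr
        _ = 2 * C₂ * w / s := by ring
        _ ≤ C₃ * w / s := by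
          gcongr
          rw [hC₃]
          linarith
    · refine le_trans ?_ hsR
      calc C₂ * (1 + Real.log (1 / lam) + Real.log (1 / |σ|) + Real.log R)
          ≤ C₂ * (w + w + w + w) := by gcongr
        _ = 4 * C₂ * w := by ring
        _ ≤ C₃ * w := by
          gcongr
          rw [hC₃]
          linarith
    · calc C₂ * (1 + Real.log (1 / lam) + s * n) * η ≤ T₀ * η := by gcongr
        _ = lam := by rw [hT₀, hη]; field_simp
  have hzre : |(zc E₀ η).re| ≤ 2 * d + 2 := by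
    have : (zc E₀ η).re = E₀ := by simp [zc]
    rw [this, abs_of_pos (by linarith)]
    linarith
  have hzim : (zc E₀ η).im = η := by simp [zc]
  have hσAL : |σ| ^ (-AL) ≤ t ^ AL := by
    rw [Real.rpow_neg (abs_nonneg _), ← Real.inv_rpow (abs_nonneg _)]
    refine Real.rpow_le_rpow (by positivity) ?_ (by linarith)
    rwa [one_div] at hσt
  have hmean : ∀ (N : ℕ) (b : Site d) (i : Fin d), box b (n + R + 1) ⊆ box 0 N →
      box (b + pt i n) 0 ⊆ box 0 N →
      ∫⁻ V, LC V (box 0 N) (zc E₀ η) (box b 0) (box (b + pt i n) 0) ∂(PP d (gl σ)) ≤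
        ENNReal.ofReal (T₀ + 1) := by
    intro N b i hbox hbox2
    refine (hlnk σ (zc E₀ η) N 0 n b i hσ hσ1 hzre (by rw [hzim]; exact hη0)
      (by rw [hzim]; linarith) ((box_mono b (by omega)).trans hbox)).1 T₀ q (by positivity) hq0
      hbox2 ?_ (hprob N b i hbox)
    have h1 : ((2 * ((0 : ℕ) : ℝ) + 1 : ℝ)) ^ (2 * d) = 1 := by
      rw [Nat.cast_zero, mul_zero, zero_add, one_pow]
    rw [h1, mul_one]
    have hn1t : (n : ℝ) + 1 ≤ t := by linarith
    have h2 : t ^ AL * t ^ 2 * t ^ (-(C₃ / 16)) ≤ t ^ (-(2 : ℝ)) := by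
      rw [← Real.rpow_natCast t 2, ← Real.rpow_add ht0, ← Real.rpow_add ht0]
      refine Real.rpow_le_rpow_of_exponent_le (by linarith) ?_
      push_cast
      rw [hC₃]
      linarith
    have h3 : t ^ (-(2 : ℝ)) ≤ t⁻¹ := by
      rw [← Real.rpow_neg_one]
      exact Real.rpow_le_rpow_of_exponent_le (by linarith) (by norm_num)
    calc CL * |σ| ^ (-AL) * ((n : ℝ) + 1) ^ 2 * q
        ≤ CL * t ^ AL * t ^ 2 * q := by gcongr
      _ = 2 * CL * (t ^ AL * t ^ 2 * t ^ (-(C₃ / 16))) := by rw [hq]; ring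
      _ ≤ C * t⁻¹ := by
        gcongr
        exact h2.trans h3
      _ ≤ t * t⁻¹ := by gcongr
      _ = 1 := mul_inv_cancel₀ ht0.ne'
  -- the chain
  set X : ℝ := (4 * C₂ + 6) * w with hX
  have hX0 : 0 < X := by positivity
  set A₂ : ℝ := CL * |σ| ^ (-AL) * (2 * ((0 : ℕ) : ℝ) + 1 : ℝ) ^ d with hA₂
  have hA₂0 : 0 ≤ A₂ := by positivity
  have hlog : Real.log (1 + 8 * (2 * ((0 : ℕ) : ℝ) + 1 : ℝ) ^ (2 * d) / |σ|) ≤ 4 * w := by
    rw [Nat.cast_zero, mul_zero, zero_add, one_pow, mul_one]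
    have h1 : 1 + 8 / |σ| ≤ 9 * t := by
      have h2 : 8 / |σ| = 8 * (1 / |σ|) := by ring
      rw [h2]
      linarith
    have h9 : Real.log 9 ≤ 3 * w := by
      have h5 : Real.log 9 ≤ 3 := by
        rw [Real.log_le_iff_le_exp (by norm_num)]
        have h6 := Real.quadratic_le_exp_of_nonneg (show (0 : ℝ) ≤ 3 by norm_num)
        have h7 := Real.pow_div_factorial_le_exp (3 : ℝ) (by norm_num) 3
        have h8 : Real.exp 3 = Real.exp 1 ^ 3 := by
          rw [← Real.exp_nat_mul]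
          norm_num
        have h9 := Real.exp_one_gt_d9
        rw [h8]
        calc (9 : ℝ) ≤ 2.7 ^ 3 := by norm_num
          _ ≤ Real.exp 1 ^ 3 := by
            gcongr
            linarith
      linarith
    calc Real.log (1 + 8 / |σ|) ≤ Real.log (9 * t) := Real.log_le_log (by positivity) h1
      _ = Real.log 9 + w := by rw [Real.log_mul (by norm_num) ht0.ne']
      _ ≤ 4 * w := by linarith
  have hXX : T₀ + 1 + 1 + Real.log (1 + 8 * (2 * ((0 : ℕ) : ℝ) + 1 : ℝ) ^ (2 * d) / |σ|) ≤ X := by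
    rw [hX, hT₀]
    linarith
  set c : ℝ := 2 * X / n with hc
  have hc0 : 0 ≤ c := by positivity
  have hmain := avg d 1 σ E₀ η c γ (by omega) hσ hη0 hc0 hγ ?_
  · have hwin := win γ E₀ η (2 * lam) hη0 (by linarith)
    have hsub : Set.Icc (z - lam) (z + lam) ⊆ Set.Icc (E₀ - 2 * lam) (E₀ + 2 * lam) := by
      intro E hE
      rw [hE₀]
      exact ⟨by linarith [hE.1], by linarith [hE.2]⟩
    refine (lintegral_mono_set hsub).trans (hwin.trans ?_)
    refine (mul_le_mul_right hmain _).trans ?_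
    rw [← ENNReal.ofReal_mul (by positivity)]
    refine ENNReal.ofReal_le_ofReal ?_
    have h1 : (η ^ 2 + (2 * lam) ^ 2) / (2 * η) ≤ 10 * C₂ * lam * w := by
      rw [div_le_iff₀ (by positivity)]
      have h2 : 10 * C₂ * lam * w * (2 * η) = 5 * lam ^ 2 := by
        rw [hη]
        field_simp
        ring
      rw [h2]
      have h3 : η ^ 2 ≤ lam ^ 2 := by gcongr
      linarith
    have h2 : c ≤ 2 * (4 * C₂ + 6) * s := by
      rw [hc]
      calc 2 * X / n ≤ 2 * X / (w / s) := by gcongr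
        _ = 2 * (4 * C₂ + 6) * s := by rw [hX]; field_simp
    have h3 : lam ^ (3 / 2 : ℝ) = lam * s := by
      rw [hs, Real.sqrt_eq_rpow, show (3 / 2 : ℝ) = 1 + 1 / 2 by norm_num,
        Real.rpow_add hlam0, Real.rpow_one]
    have hpi : Real.pi ≤ 4 := Real.pi_le_four
    rw [h3]
    calc (η ^ 2 + (2 * lam) ^ 2) / (2 * η) * (2 * Real.pi * c)
        ≤ 10 * C₂ * lam * w * (2 * 4 * (2 * (4 * C₂ + 6) * s)) := by gcongr
      _ = 160 * C₂ * (4 * C₂ + 6) * (lam * s) * w := by ring
      _ ≤ C * (lam * s) * w := by gcongr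
  · intro M₀
    set i : Fin d := ⟨0, by omega⟩ with hi
    obtain ⟨K₀, hK₀⟩ := exists_nat_ge ((A₂ + 2 * X / n) / X)
    set K : ℕ := max K₀ (M₀ + 2) with hK
    have hKK₀ : K₀ ≤ K := le_max_left _ _
    have hKM₀ : M₀ + 2 ≤ K := le_max_right _ _
    have hKL : K ≤ K * n := Nat.le_mul_of_pos_right K hn1
    have hbig : ∀ k ≤ K, k * n ≤ K * n := fun k hk => Nat.mul_le_mul_right n hk
    refine ⟨K * n - 1, K * n + n + R + 2, box (pt i (K * n)) 0, by omega, by omega,
      box_pt_subset i (by omega), box_nonempty _ _, by rw [card_box]; simp, ?_, ?_⟩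
    · intro u hu
      have := sd_of_mem_box_pt i hu
      omega
    · have h1 := chn d K n 0 (K * n + n + R + 2) i σ (zc E₀ η) (T₀ + 1) A₂ hσ hσ1
        (by rw [hzim]; exact hη0) (by positivity) hA₂0
        (fun k hk => box_pt_subset i (by have := hbig k hk; omega)) ?_ ?_
      · refine h1.trans (ENNReal.ofReal_le_ofReal ?_)
        have h2 : (K : ℝ) * (T₀ + 1 + 1 +
            Real.log (1 + 8 * (2 * ((0 : ℕ) : ℝ) + 1 : ℝ) ^ (2 * d) / |σ|)) ≤ K * X := by gcongr
        have h3 : (A₂ + 2 * X / n) ≤ K * X := by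
          have h4 : (A₂ + 2 * X / n) / X ≤ K := hK₀.trans (by exact_mod_cast hKK₀)
          rwa [div_le_iff₀ hX0] at h4
        have h5 : ((K * n - 1 : ℕ) : ℝ) = K * n - 1 := by
          rw [Nat.cast_sub (by omega)]
          push_cast
          ring
        have h6 : c * ((K * n - 1 : ℕ) : ℝ) = 2 * (K * X) - 2 * X / n := by
          rw [h5, hc]
          field_simp
        rw [h6]
        linarith
      · intro k hk
        have hk1 : (k + 1) * n ≤ K * n := Nat.mul_le_mul_right n hk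
        have hk2 : k * n + n = (k + 1) * n := by ring
        rw [← pt_add]
        refine hmean _ _ i (box_pt_subset i (by omega)) ?_
        rw [pt_add]
        exact box_pt_subset i (by omega)
      · exact (hlnk σ (zc E₀ η) _ 0 n _ i hσ hσ1 hzre (by rw [hzim]; exact hη0)
          (by rw [hzim]; linarith) (box_pt_subset i (by omega))).2

end Pool.Agent.LE.MN.H54
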